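import Pool.Agent.Helper89.Vol4.Goals

/-! # Project V47 (MP_cd13d2_co), packet D4: the minors -/

set_option autoImplicit false

namespace Pool.Agent.Helper77.Vol4.PkD4

open Pool.Agent.Helper86.Poly Pool.Agent.Helper89.Vol4

/-- expansion along the last column, which is a unit vector -/
lemma expand {n : ℕ} (A : Matrix (Fin (n + 1)) (Fin (n + 1)) ℝ) (i : Fin (n + 1))
    (h : ∀ k, A k (Fin.last n) = if k = i then 1 else 0) :
    A.det = (-1) ^ ((i : ℕ) + n) * (A.submatrix i.succAbove Fin.castSucc).det := by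
  rw [Matrix.det_succ_column A (Fin.last n), Finset.sum_eq_single i]
  · rw [h i, if_pos rfl, mul_one, Fin.succAbove_last, Fin.val_last]
  · intro k _ hk
    rw [h k, if_neg hk]; ring
  · intro h'; exact absurd (Finset.mem_univ _) h'

/-- the rows `(1, p k)` -/
noncomputable def M5 (p : Fin 5 → E 4) : Matrix (Fin 5) (Fin 5) ℝ :=
  Matrix.of fun k : Fin 5 => ![1, p k 0, p k 1, p k 2, p k 3]

/-- the rows `(1, p 0)`, `(0, p k - p 0)` -/
noncomputable def N5 (p : Fin 5 → E 4) : Matrix (Fin 5) (Fin 5) ℝ :=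
  Matrix.of fun k : Fin 5 => if k = 0 then ![1, p 0 0, p 0 1, p 0 2, p 0 3] else
    ![0, p k 0 - p 0 0, p k 1 - p 0 1, p k 2 - p 0 2, p k 3 - p 0 3]

lemma M5_eq (p : Fin 5 → E 4) : (M5 p).det = (N5 p).det := by
  refine Matrix.det_eq_of_forall_row_eq_smul_add_const (fun k => if k = 0 then 0 else 1) 0
    (if_pos rfl) ?_
  intro i j
  by_cases hi : i = 0
  · subst hi
    fin_cases j <;> simp [M5, N5]
  · fin_cases j <;> simp [M5, N5, hi]

/-- the `5 × 5` determinant is `br` -/
lemma five (p : Fin 5 → E 4) : (M5 p).det = br (p 0) (p 1) (p 2) (p 3) (p 4) := by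
  rw [M5_eq, Matrix.det_succ_column_zero, Finset.sum_eq_single 0]
  · unfold br dt
    have h1 : N5 p 0 0 = 1 := by simp [N5]
    rw [h1, Fin.val_zero, pow_zero, one_mul, one_mul]
    congr 1
    ext a b
    fin_cases a <;> fin_cases b <;> rfl
  · intro k _ hk
    have h1 : N5 p k 0 = 0 := by simp [N5, hk]
    rw [h1]; ring
  · intro h'; exact absurd (Finset.mem_univ _) h'

/-- the two expansions -/
lemma two (x : Fin 7 → E 4) (j : Fin 7) (i : Fin 6) :
    Dt x (j.succAbove i) j = (-1) ^ ((j : ℕ) + 6) * ((-1) ^ ((i : ℕ) + 5) *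
      br (x (j.succAbove (i.succAbove 0))) (x (j.succAbove (i.succAbove 1)))
        (x (j.succAbove (i.succAbove 2))) (x (j.succAbove (i.succAbove 3)))
        (x (j.succAbove (i.succAbove 4)))) := by
  unfold Dt W
  rw [expand _ j, expand _ i]
  · congr 2
    have h := five (fun k => x (j.succAbove (i.succAbove k)))
    rw [← h]
    congr 1
    ext a b
    fin_cases a <;> fin_cases b <;> rfl
  · intro k
    show (Pi.single (j.succAbove i) (1 : ℝ) : Fin 7 → ℝ) (j.succAbove k) = _
    rw [Pi.single_apply]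
    congr 1
    exact propext (Fin.succAbove_right_injective.eq_iff)
  · intro k
    show (Pi.single j (1 : ℝ) : Fin 7 → ℝ) k = _
    rw [Pi.single_apply]

theorem thm : Pool.Agent.Helper89.Vol4.G_D4 := by
  intro x
  refine ⟨⟨?_, ?_, ?_, ?_, ?_⟩, ⟨?_, ?_, ?_, ?_⟩, ⟨?_, ?_, ?_⟩, ⟨?_, ?_⟩, ?_⟩
  · have h := two x 2 1
    rw [show (2 : Fin 7).succAbove 1 = 1 from rfl] at h
    rw [h]
    norm_num
    rfl
  · have h := two x 3 1
    rw [show (3 : Fin 7).succAbove 1 = 1 from rfl] at h
    rw [h]
    norm_num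
    rfl
  · have h := two x 4 1
    rw [show (4 : Fin 7).succAbove 1 = 1 from rfl] at h
    rw [h]
    norm_num
    rfl
  · have h := two x 5 1
    rw [show (5 : Fin 7).succAbove 1 = 1 from rfl] at h
    rw [h]
    norm_num
    rfl
  · have h := two x 6 1
    rw [show (6 : Fin 7).succAbove 1 = 1 from rfl] at h
    rw [h]
    norm_num
    rfl
  · have h := two x 3 2
    rw [show (3 : Fin 7).succAbove 2 = 2 from rfl] at h
    rw [h]
    norm_num
    rfl
  · have h := two x 4 2
    rw [show (4 : Fin 7).succAbove 2 = 2 from rfl] at h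
    rw [h]
    norm_num
    rfl
  · have h := two x 5 2
    rw [show (5 : Fin 7).succAbove 2 = 2 from rfl] at h
    rw [h]
    norm_num
    rfl
  · have h := two x 6 2
    rw [show (6 : Fin 7).succAbove 2 = 2 from rfl] at h
    rw [h]
    norm_num
    rfl
  · have h := two x 4 3
    rw [show (4 : Fin 7).succAbove 3 = 3 from rfl] at h
    rw [h]
    norm_num
    rfl
  · have h := two x 5 3
    rw [show (5 : Fin 7).succAbove 3 = 3 from rfl] at h
    rw [h]
    norm_num
    rfl
  · have h := two x 6 3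
    rw [show (6 : Fin 7).succAbove 3 = 3 from rfl] at h
    rw [h]
    norm_num
    rfl
  · have h := two x 5 4
    rw [show (5 : Fin 7).succAbove 4 = 4 from rfl] at h
    rw [h]
    norm_num
    rfl
  · have h := two x 6 4
    rw [show (6 : Fin 7).succAbove 4 = 4 from rfl] at h
    rw [h]
    norm_num
    rfl
  · have h := two x 6 5
    rw [show (6 : Fin 7).succAbove 5 = 5 from rfl] at h
    rw [h]
    norm_num
    rfl

end Pool.Agent.Helper77.Vol4.PkD4
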